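import Mathlib
import Pool.Agent.LibThreeAdic.Main

set_option autoImplicit false

namespace Pool.Agent.Results.MP_7f2dba_nt.Q1Valuation

open Pool.Agent.LibThreeAdic

/-- Q1: for every integer m congruent to 1 modulo 3 and every positive n, the 3-adic valuation of
S m n / n is at least min (nu3 n) (nu3 (m-1)) - 1. -/
theorem result (m : ℤ) (hm : m ≡ 1 [ZMOD 3]) (n : ℕ) (hn : 0 < n) :
    min (nu3 (n : ℚ)) (nu3 ((m : ℚ) - 1)) ≤ nu3 (S m n / n) + 1 := by
  have hn0 : (n:ℚ) ≠ 0 := by exact_mod_cast hn.ne'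
  -- it suffices to find k with the min equal to k
  have key : ∀ k : ℕ, 3^k ∣ n → (3:ℤ)^k ∣ m - 1 → ((k:ℤ) : WithTop ℤ) ≤ nu3 (S m n / n) + 1 := by
    intro k h1 h2
    have h3 := (V_iff _ _).1 (mainV m hm n hn k h1 h2)
    have h4 : (((k:ℤ) - 1 : ℤ) : WithTop ℤ) + 1 ≤ nu3 (S m n / n) + 1 := by gcongr
    refine le_trans (le_of_eq ?_) h4
    have h5 : (k:ℤ) = ((k:ℤ) - 1) + 1 := by ring
    conv_lhs => rw [h5]
    rw [WithTop.coe_add]
    rfl
  have hnu : nu3 (n:ℚ) = (((padicValNat 3 n : ℕ) : ℤ) : WithTop ℤ) := by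
    unfold nu3
    rw [if_neg hn0, padicValRat.of_nat]
  by_cases h1 : m = 1
  · have h2 : nu3 ((m:ℚ) - 1) = ⊤ := by
      unfold nu3; rw [if_pos]; rw [h1]; norm_num
    rw [h2, hnu, min_eq_left le_top]
    apply key _ pow_padicValNat_dvd
    rw [h1]; simp
  · have hm1 : m - 1 ≠ 0 := fun h => h1 (by omega)
    have h2 : nu3 ((m:ℚ) - 1) = (((padicValInt 3 (m-1) : ℕ) : ℤ) : WithTop ℤ) := by
      have e : (m:ℚ) - 1 = ((m - 1 : ℤ) : ℚ) := by push_cast; ring
      unfold nu3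
      rw [e, if_neg (by exact_mod_cast hm1), padicValRat.of_int]
    have h3 : (3:ℤ)^(padicValInt 3 (m-1)) ∣ m - 1 := by
      exact_mod_cast padicValInt_dvd (p := 3) (m-1)
    rw [h2, hnu]
    rcases le_total (padicValNat 3 n) (padicValInt 3 (m-1)) with h4 | h4
    · rw [min_eq_left (by exact_mod_cast h4)]
      exact key _ pow_padicValNat_dvd ((pow_dvd_pow 3 h4).trans h3)
    · rw [min_eq_right (by exact_mod_cast h4)]
      exact key _ ((pow_dvd_pow 3 h4).trans pow_padicValNat_dvd) h3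

end Pool.Agent.Results.MP_7f2dba_nt.Q1Valuation
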