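import Mathlib
import Pool.Agent.LibThreeAdic.Main

set_option autoImplicit false

namespace Pool.Agent.Results.MP_7f2dba_nt.Q2Congruences

open Pool.Agent.LibThreeAdic

/-- Q2, both parts. A congruence x = y modulo 3^e in the 3-integral rationals is expressed as
e <= nu3 (x - y). -/
theorem result :
    (∀ m : ℤ, m ≡ 1 [ZMOD 3] → m ≠ 1 → ∀ a : ℕ, nu3 ((m : ℚ) - 1) < ((a : ℤ) : WithTop ℤ) →
      nu3 ((m : ℚ) - 1) ≤ nu3 (S m (3 ^ a) / 3 ^ a - (-(((m : ℚ) - 1) / 3)))) ∧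
    (∀ a : ℕ, 2 ≤ a → ((2 * a : ℤ) : WithTop ℤ) ≤ nu3 (S 1 (3 ^ a) - (-(3 ^ (2 * a - 1))))) := by
  constructor
  · intro m hm h1 a ha
    have hm1 : m - 1 ≠ 0 := fun h => h1 (by omega)
    have h2 : nu3 ((m:ℚ) - 1) = (((padicValInt 3 (m-1) : ℕ) : ℤ) : WithTop ℤ) := by
      have e : (m:ℚ) - 1 = ((m - 1 : ℤ) : ℚ) := by push_cast; ring
      unfold nu3
      rw [e, if_neg (by exact_mod_cast hm1), padicValRat.of_int]
    rw [h2] at ha ⊢
    have h3 : (3:ℤ)^(padicValInt 3 (m-1)) ∣ m - 1 := by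
      exact_mod_cast padicValInt_dvd (p := 3) (m-1)
    have h4 : padicValInt 3 (m-1) < a := by exact_mod_cast ha
    have h5 : 1 ≤ padicValInt 3 (m-1) := by
      by_contra h
      have h6 : padicValInt 3 (m-1) = 0 := by omega
      have h7 : (3:ℤ) ∣ m - 1 := hm.symm.dvd
      rw [padicValInt.eq_zero_iff] at h6
      rcases h6 with h6 | h6 | h6
      · norm_num at h6
      · exact hm1 h6
      · exact h6 (by exact_mod_cast h7)
    have h6 := (V_iff _ _).1 (mainA m hm a _ h3 h4 h5)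
    rw [sub_neg_eq_add]
    push_cast at h6 ⊢
    exact h6
  · intro a ha
    have h6 := (V_iff _ _).1 (mainB a ha)
    rw [sub_neg_eq_add]
    exact h6

end Pool.Agent.Results.MP_7f2dba_nt.Q2Congruences
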